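import Pool.Agent.Helper30.LW.St

/-!
# Project LW, module SRW
-/

set_option autoImplicit false

noncomputable section

namespace Pool.Agent.Helper27.LW

open Finset
open Pool.Agent.Helper93.KN (ff StSieve)
open Pool.Agent.Helper30.PB (StPIP)
open Pool.Agent.Helper30.LW

private lemma ff_one : ff 1 = 1 := by
  unfold ff
  simp

private lemma lt_of_le_rpow {x K l : ℕ} {δ : ℝ} (hx : 4 ≤ x) (hK : 2 ≤ K) (hKx : K ≤ x ^ 2)
    (hδ : δ ≤ 1 / 4) (hl : (l : ℝ) ≤ (K : ℝ) ^ δ) : 2 * l ≤ x := by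
  have hx0 : (0 : ℝ) ≤ x := Nat.cast_nonneg _
  have hK1 : (1 : ℝ) ≤ K := by exact_mod_cast (by omega : 1 ≤ K)
  have h1 : (K : ℝ) ^ δ ≤ (K : ℝ) ^ (1 / 4 : ℝ) := Real.rpow_le_rpow_of_exponent_le hK1 hδ
  have h2 : (K : ℝ) ^ (1 / 4 : ℝ) ≤ ((x : ℝ) ^ 2) ^ (1 / 4 : ℝ) :=
    Real.rpow_le_rpow (by positivity) (by exact_mod_cast hKx) (by norm_num)
  have h3 : ((x : ℝ) ^ 2) ^ (1 / 4 : ℝ) = √(x : ℝ) := by
    rw [Real.sqrt_eq_rpow, ← Real.rpow_natCast, ← Real.rpow_mul hx0]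
    norm_num
  have h4 : √(x : ℝ) ≤ x / 2 := by
    rw [Real.sqrt_le_left (by positivity)]
    have : (4 : ℝ) ≤ x := by exact_mod_cast hx
    nlinarith
  have h5 : (l : ℝ) ≤ x / 2 := hl.trans (h1.trans (h2.trans (h3.le.trans h4)))
  have h6 : ((2 * l : ℕ) : ℝ) ≤ x := by
    push_cast
    linarith
  exact_mod_cast h6

theorem hSRW (hS : StSieve) : StSRW := by
  classical
  obtain ⟨C, δ, hC, hδ0, hδ, h⟩ := hS 2 (by norm_num) (by norm_num)
  refine ⟨C, hC, fun x K hx hK hKx => ?_⟩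
  have h1 := h K hK (fun l => {2, (l + 1) / 2}) 1 one_ne_zero (by
    intro l hl h5
    have hodd : 2 * ((l + 1) / 2) = l + 1 := by
      have : l % 2 = 1 := by
        rcases hl.eq_two_or_odd with h | h
        · omega
        · exact h
      omega
    have hne : 2 ≠ (l + 1) / 2 := by omega
    refine ⟨?_, ?_, ?_⟩
    · intro s hs
      rw [mem_insert, mem_singleton] at hs
      rcases hs with rfl | rfl <;> omega
    · rw [card_pair hne]
    · intro _
      rw [card_pair hne])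
  rw [ff_one, mul_one] at h1
  refine le_trans ?_ h1
  have hsub : Sw x K ⊆ (Icc 1 K).filter (fun n : ℕ => ∀ l : ℕ, l.Prime → 5 ≤ l → (l : ℝ) ≤ (K : ℝ) ^ δ →
      n % l ∉ ({2, (l + 1) / 2} : Finset ℕ)) := by
    intro k hk
    unfold Sw at hk
    rw [mem_filter] at hk ⊢
    refine ⟨hk.1, ?_⟩
    intro l hl h5 hlK hmem
    have h2l : 2 * l ≤ x := lt_of_le_rpow hx hK hKx hδ hlK
    refine hk.2 l hl h5 h2l ?_
    rw [mem_insert, mem_singleton] at hmem
    have hdm := Nat.div_add_mod k l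
    rcases hmem with h2 | h2
    · rw [h2] at hdm
      have h4 : ((l * (k / l) + 2 : ℕ) : ℤ) = (k : ℤ) := by exact_mod_cast hdm
      have h5' : (l : ℤ) ∣ (k : ℤ) - 2 := by
        rw [← h4]
        push_cast
        exact ⟨((k : ℤ) / l), by ring⟩
      exact h5'.mul_left _
    · have hodd : 2 * ((l + 1) / 2) = l + 1 := by
        have : l % 2 = 1 := by
          rcases hl.eq_two_or_odd with h | h
          · omega
          · exact h
        omega
      rw [h2] at hdm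
      have h3 : 2 * (l * (k / l)) + (l + 1) = 2 * k := by omega
      have h4 : ((2 * (l * (k / l)) + (l + 1) : ℕ) : ℤ) = ((2 * k : ℕ) : ℤ) := by exact_mod_cast h3
      have h5' : (l : ℤ) ∣ 2 * (k : ℤ) - 1 := by
        have h6 : 2 * (k : ℤ) = ((2 * k : ℕ) : ℤ) := by push_cast; rfl
        rw [h6, ← h4]
        push_cast
        exact ⟨2 * ((k : ℤ) / l) + 1, by ring⟩
      exact h5'.mul_right _
  exact_mod_cast card_le_card hsub

end Pool.Agent.Helper27.LW
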