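import Pool.Agent.Helper69.LW.Basic

/-!
# MP_687a20_mp : scaling
-/

open MeasureTheory Set Filter Topology
open scoped ContDiff Pointwise

namespace LeakyWire

variable {f u w : ℝ × ℝ → ℝ}

/-- The scaled function `p ↦ a f(a p)`. -/
noncomputable def scl (a : ℝ) (f : ℝ × ℝ → ℝ) (p : ℝ × ℝ) : ℝ := a * f (a • p)

theorem Test.scl (hf : Test f) {a : ℝ} (ha : 0 < a) : Test (LeakyWire.scl a f) := by
  refine ⟨?_, ?_⟩
  · exact contDiff_const.mul (hf.1.comp (contDiff_const_smul a))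
  · have h1 : HasCompactSupport (f ∘ (Homeomorph.smulOfNeZero a ha.ne')) :=
      hf.2.comp_homeomorph _
    exact h1.mul_left (f := fun _ => a)

theorem scl_scl (f : ℝ × ℝ → ℝ) {a b : ℝ} (hab : a * b = 1) : scl a (scl b f) = f := by
  funext p
  unfold scl
  rw [smul_smul, ← mul_assoc, hab, mul_comm b a, hab, one_mul, one_smul]

theorem scl_fderiv (hf : Test f) (a : ℝ) (p v : ℝ × ℝ) :
    fderiv ℝ (scl a f) p v = a ^ 2 * fderiv ℝ f (a • p) v := by
  have h1 : HasFDerivAt (fun p : ℝ × ℝ => a • p) (a • ContinuousLinearMap.id ℝ (ℝ × ℝ)) p :=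
    (hasFDerivAt_id p).const_smul a
  have h2 : HasFDerivAt (fun p => f (a • p))
      ((fderiv ℝ f (a • p)).comp (a • ContinuousLinearMap.id ℝ (ℝ × ℝ))) p :=
    (hf.diff (a • p)).hasFDerivAt.comp p h1
  have h3 := (h2.const_mul a).fderiv
  have h4 : (scl a f) = fun p => a * f (a • p) := rfl
  rw [h4, h3]
  have h5 : (fderiv ℝ f (a • p)) (a • v) = a * fderiv ℝ f (a • p) v := by
    rw [map_smul, smul_eq_mul]
  change a * ((fderiv ℝ f (a • p)) (a • v)) = _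
  rw [h5]
  ring

theorem scl_d1 (hf : Test f) (a : ℝ) (p : ℝ × ℝ) : d1 (scl a f) p = a ^ 2 * d1 f (a • p) :=
  scl_fderiv hf a p (1, 0)

theorem scl_d2 (hf : Test f) (a : ℝ) (p : ℝ × ℝ) : d2 (scl a f) p = a ^ 2 * d2 f (a • p) :=
  scl_fderiv hf a p (0, 1)

theorem integral_scale (F : ℝ × ℝ → ℝ) {a : ℝ} (ha : 0 < a) :
    ∫ p, F (a • p) = (a ^ 2)⁻¹ * ∫ p, F p := by
  have h := Measure.integral_comp_smul (volume : Measure (ℝ × ℝ)) F a
  have h2 : Module.finrank ℝ (ℝ × ℝ) = 2 := by simp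
  rw [h, h2, abs_of_pos (by positivity), smul_eq_mul]

theorem mass_scl (f : ℝ × ℝ → ℝ) {a : ℝ} (ha : 0 < a) : mass (scl a f) = mass f := by
  unfold mass
  have h := integral_scale (fun p => (a * f p) ^ 2) ha
  unfold scl
  rw [h]
  have h2 : (fun p => (a * f p) ^ 2) = fun p => a ^ 2 * f p ^ 2 := by
    funext p
    ring
  rw [h2, integral_const_mul, ← mul_assoc, inv_mul_cancel₀ (by positivity), one_mul]

theorem form_scl (hf : Test f) (θ : ℝ) {a : ℝ} (ha : 0 < a) :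
    form a θ (scl a f) = a ^ 2 * form 1 θ f := by
  unfold form
  have h1 : ∫ p, (d1 (scl a f) p ^ 2 + d2 (scl a f) p ^ 2) =
      a ^ 2 * ∫ p, (d1 f p ^ 2 + d2 f p ^ 2) := by
    have h := integral_scale (fun p => a ^ 4 * (d1 f p ^ 2 + d2 f p ^ 2)) ha
    have h2 : (fun p => d1 (scl a f) p ^ 2 + d2 (scl a f) p ^ 2) =
        fun p => a ^ 4 * (d1 f (a • p) ^ 2 + d2 f (a • p) ^ 2) := by
      funext p
      rw [scl_d1 hf, scl_d2 hf]
      ring
    rw [h2, h, integral_const_mul]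
    field_simp
  have h3 : ∀ x y : ℝ, ∫ s in Ioi (0 : ℝ), scl a f (s * x, s * y) ^ 2 =
      a * ∫ s in Ioi (0 : ℝ), f (s * x, s * y) ^ 2 := by
    intro x y
    have h := integral_comp_mul_left_Ioi (fun s => a ^ 2 * f (s * x, s * y) ^ 2) 0 ha
    rw [mul_zero] at h
    have h2 : (fun s : ℝ => scl a f (s * x, s * y) ^ 2) =
        fun s => a ^ 2 * f (a * s * x, a * s * y) ^ 2 := by
      funext s
      unfold scl
      rw [Prod.smul_mk, smul_eq_mul, smul_eq_mul, ← mul_assoc, ← mul_assoc]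
      ring
    rw [h2, h, smul_eq_mul, integral_const_mul, ← mul_assoc]
    congr 1
    field_simp
  have h4 := h3 (Real.cos (θ / 2)) (Real.sin (θ / 2))
  have h5 := h3 (-Real.cos (θ / 2)) (Real.sin (θ / 2))
  simp only [mul_neg] at h5
  rw [h1, h4, h5]
  ring

theorem lam_scale (α θ : ℝ) (hα : 0 < α) : lam α θ = α ^ 2 * lam 1 θ := by
  unfold lam
  have h1 : {r | ∃ f, Test f ∧ mass f = 1 ∧ r = form α θ f} =
      (α ^ 2) • {r | ∃ f, Test f ∧ mass f = 1 ∧ r = form 1 θ f} := by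
    ext r
    rw [mem_smul_set]
    constructor
    · rintro ⟨f, hf, hm, rfl⟩
      have hi : 0 < α⁻¹ := inv_pos.mpr hα
      have hg : Test (scl α⁻¹ f) := hf.scl hi
      refine ⟨form 1 θ (scl α⁻¹ f), ⟨scl α⁻¹ f, hg, ?_, rfl⟩, ?_⟩
      · rw [mass_scl f hi, hm]
      · rw [smul_eq_mul, ← form_scl hg θ hα, scl_scl f (mul_inv_cancel₀ hα.ne')]
    · rintro ⟨r, ⟨f, hf, hm, rfl⟩, rfl⟩
      refine ⟨scl α f, hf.scl hα, ?_, ?_⟩
      · rw [mass_scl f hα, hm]
      · rw [smul_eq_mul, form_scl hf θ hα]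
  rw [h1, Real.sInf_smul_of_nonneg (by positivity), smul_eq_mul]

end LeakyWire
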