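import Pool.Agent.Helper69.LW.Basic

/-!
# MP_687a20_mp : splitting by the mirror symmetry
-/

open MeasureTheory Set Filter Topology
open scoped ContDiff

namespace LeakyWire

variable {f u w : ℝ × ℝ → ℝ}

/-- The mirror map. -/
noncomputable def mir : (ℝ × ℝ) ≃L[ℝ] (ℝ × ℝ) :=
  (ContinuousLinearEquiv.neg ℝ).prodCongr (ContinuousLinearEquiv.refl ℝ ℝ)

theorem mir_apply (p : ℝ × ℝ) : mir p = (-p.1, p.2) := rfl

theorem refl_eq (f : ℝ × ℝ → ℝ) : refl f = f ∘ mir := rfl

theorem Test.refl (hf : Test f) : Test (LeakyWire.refl f) := by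
  refine ⟨?_, ?_⟩
  · rw [refl_eq]
    exact hf.1.comp mir.contDiff
  · rw [refl_eq]
    exact hf.2.comp_homeomorph mir.toHomeomorph

theorem mir_mp : MeasurePreserving (mir : ℝ × ℝ → ℝ × ℝ) volume volume := by
  have h1 : MeasurePreserving (fun x : ℝ => -x) volume volume := Measure.measurePreserving_neg _
  exact h1.prod (MeasurePreserving.id volume)

theorem mir_emb : MeasurableEmbedding (mir : ℝ × ℝ → ℝ × ℝ) :=
  mir.toHomeomorph.measurableEmbedding

theorem hp_compl_ae : (hpᶜ : Set (ℝ × ℝ)) =ᵐ[volume] (mir ⁻¹' hp) := by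
  have h0 : (volume : Measure (ℝ × ℝ)) ({0} ×ˢ univ) = 0 := by
    rw [Measure.volume_eq_prod, Measure.prod_prod]
    simp
  have h1 : ∀ᵐ p : ℝ × ℝ, p ∉ ({0} ×ˢ univ : Set (ℝ × ℝ)) := measure_eq_zero_iff_ae_notMem.mp h0
  filter_upwards [h1] with p hp1
  have h2 : p.1 ≠ 0 := fun h => hp1 (by simp [h])
  apply propext
  change p ∈ hpᶜ ↔ p ∈ mir ⁻¹' hp
  rw [mem_compl_iff, mem_hp, mem_preimage, mem_hp, mir_apply]
  constructor
  · intro h
    exact neg_pos.mpr (lt_of_le_of_ne (not_lt.mp h) h2)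
  · intro h
    exact not_lt.mpr (neg_pos.mp h).le

/-- The integral over the plane as a sum over two half planes. -/
theorem integral_mir_split {F : ℝ × ℝ → ℝ} (hF : Integrable F) :
    ∫ p, F p = (∫ p in hp, F p) + ∫ p in hp, F (mir p) := by
  rw [← integral_add_compl hp_meas hF, setIntegral_congr_set hp_compl_ae]
  congr 1
  have h1 := mir_mp.setIntegral_preimage_emb mir_emb (fun p => F (mir p)) hp
  rw [← h1]
  refine integral_congr_ae (Eventually.of_forall fun p => ?_)
  change F p = F (mir (mir p))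
  rw [mir_apply, mir_apply, neg_neg]

theorem refl_fderiv (hf : Test f) (p v : ℝ × ℝ) :
    fderiv ℝ (LeakyWire.refl f) p v = fderiv ℝ f (mir p) (mir v) := by
  have h2 : HasFDerivAt (LeakyWire.refl f)
      ((fderiv ℝ f (mir p)).comp (mir : (ℝ × ℝ) →L[ℝ] (ℝ × ℝ))) p :=
    (hf.diff (mir p)).hasFDerivAt.comp p mir.hasFDerivAt
  rw [h2.fderiv]
  rfl

theorem refl_d1 (hf : Test f) (p : ℝ × ℝ) : d1 (LeakyWire.refl f) p = -d1 f (mir p) := by
  unfold d1
  rw [refl_fderiv hf, ← map_neg]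
  congr 1
  rw [mir_apply]
  simp

theorem refl_d2 (hf : Test f) (p : ℝ × ℝ) : d2 (LeakyWire.refl f) p = d2 f (mir p) := by
  unfold d2
  rw [refl_fderiv hf]
  congr 1
  rw [mir_apply]
  simp

theorem mass_split (hf : Test f) : mass f = N f + N (refl f) := by
  unfold mass N
  rw [integral_mir_split hf.nice.sq.integrable]
  rfl

theorem form_split (hf : Test f) (θ : ℝ) : form 1 θ f = hform θ f + hform θ (refl f) := by
  unfold form hform
  rw [integral_mir_split (hf.test_d1.nice.sq.add hf.test_d2.nice.sq).integrable]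
  have h1 : ∫ p in hp, (d1 (refl f) p ^ 2 + d2 (refl f) p ^ 2) =
      ∫ p in hp, (d1 f (mir p) ^ 2 + d2 f (mir p) ^ 2) := by
    congr 1
    funext p
    rw [refl_d1 hf, refl_d2 hf, neg_sq]
  rw [h1, one_mul]
  unfold refl
  ring

end LeakyWire
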